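import Pool.Agent.H40CS.NeoMain

/-!
# Orders of planar neofields

A planar neofield of order `n` with commutative multiplication gives a direct product difference
set in `K* × K*`: the pairs `(x, x + 1)`. A character of odd prime order `w ∣ n - 1`, nontrivial on
the three distinguished subgroups, has `X X̄ = n` on it. If `w` divides `l ^ i + 1` then `l` divides
`n` to an even power. A sieve shows that almost all `n` violate this condition.
-/

namespace Pool.Agent.Results.MP_46f6e9_co.OrdersDensityZero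

open Finset Filter Pool.Agent.H40CS

/-- There is a planar neofield of order `n` with commutative multiplication
(`Pool.Agent.H40CS.IsPlanarNeofield`). -/
def HasNeofield (n : ℕ) : Prop :=
  ∃ (K : Type) (add mul : K → K → K) (zero : K), Finite K ∧ Nat.card K = n ∧
    IsPlanarNeofield add mul zero ∧ ∀ a b, a ≠ zero → b ≠ zero → mul a b = mul b a

theorem DZ.unshift {P : ℕ → Prop} (h : DZ P) : DZ (fun t => P (t + 1)) := by
  intro ε hε
  obtain ⟨X₁, hX₁⟩ := h (ε / 2) (by linarith)
  refine ⟨max X₁ 1, fun X hX => ?_⟩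
  have h1 := hX₁ (X + 1) (le_trans (le_max_left _ _) (hX.trans (Nat.le_succ X)))
  have hX1 : (1 : ℝ) ≤ X := by exact_mod_cast le_trans (le_max_right _ _) hX
  have h3 : {m : ℕ | m < X ∧ P (m + 1)}.ncard ≤ {m : ℕ | m < X + 1 ∧ P m}.ncard := by
    apply Set.ncard_le_ncard_of_injOn (fun t => t + 1) ?_ ?_ (fin_lt _ _)
    · rintro t ⟨ht, hPt⟩
      exact ⟨by omega, hPt⟩
    · intro a _ b _ hab
      simpa using hab
  have h4 := (Nat.cast_le (α := ℝ)).2 h3
  push_cast at h1
  refine h4.trans (h1.trans ?_)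
  nlinarith

/-- A property of integers has density zero if, for every odd prime `w`, the `v` with this property
which are divisible by `w` have density zero. -/
theorem DZ_of_odd_dvd (P : ℕ → Prop)
    (hP : ∀ w : ℕ, w.Prime → w ≠ 2 → DZ (fun v => w ∣ v ∧ P v)) : DZ P := by
  classical
  intro ε hε
  set S : ℕ → Finset ℕ := fun l => (range l).filter (fun r => ¬ l ∣ r) with hS
  have hSc : ∀ l : ℕ, l.Prime → (l : ZMod 2) = 1 →
      ((S l).card : ℝ) ≤ (fun l : ℕ => l) l * (1 - 1 / (2 * l)) := by
    intro l hl _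
    have h1 : (S l).card < l := by
      conv_rhs => rw [← card_range l]
      apply card_lt_card
      rw [ssubset_iff_of_subset (filter_subset _ _)]
      refine ⟨0, mem_range.2 hl.pos, ?_⟩
      rw [mem_filter]
      push Not
      intro _
      exact dvd_zero l
    have h2 : ((S l).card : ℝ) + 1 ≤ l := by exact_mod_cast h1
    have hl0 : (0 : ℝ) < l := by exact_mod_cast hl.pos
    have h9 : (l : ℝ) * (1 - 1 / (2 * l)) = (l : ℝ) - 1 / 2 := by
      field_simp
    simp only
    rw [h9]
    linarith
  obtain ⟨T, hT, X₀, hX₀⟩ := sieve' (w := 2) (isUnit_one) 2 (fun l => l) S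
    (fun l _ _ => ⟨1, (pow_one l).symm⟩) hSc (ε / 2) (by linarith)
  have hDZ : DZ (fun t => ∃ l ∈ T, l ∣ t ∧ P t) :=
    DZ.exists_finset T _ fun l hl => hP l (hT l hl).1 (hT l hl).2.2.ne'
  obtain ⟨X₁, hX₁⟩ := hDZ (ε / 2) (by linarith)
  refine ⟨max X₀ X₁, fun X hX => ?_⟩
  have h1 := hX₀ X (le_trans (le_max_left _ _) hX)
  have h2 := hX₁ X (le_trans (le_max_right _ _) hX)
  rw [ncard_eq] at h2
  rw [ncard_eq]
  have h3 : ((range X).filter P).card ≤
      ((range X).filter (fun m => ∀ l ∈ T, m % l ∈ S l)).card +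
      ((range X).filter (fun t => ∃ l ∈ T, l ∣ t ∧ P t)).card := by
    refine le_trans (card_le_card ?_) (card_union_le _ _)
    intro m hm
    rw [mem_filter] at hm
    rw [mem_union, mem_filter, mem_filter]
    by_cases hex : ∃ l ∈ T, l ∣ m
    · obtain ⟨l, hl, hld⟩ := hex
      exact Or.inr ⟨hm.1, l, hl, hld, hm.2⟩
    · push Not at hex
      refine Or.inl ⟨hm.1, fun l hl => ?_⟩
      refine mem_filter.2 ⟨mem_range.2 (Nat.mod_lt _ (hT l hl).1.pos), ?_⟩
      rw [Nat.dvd_mod_iff (dvd_refl l)]
      exact hex l hl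
  have h4 := (Nat.cast_le (α := ℝ)).2 h3
  push_cast at h4
  refine h4.trans ?_
  have h5 : ε * X = ε / 2 * X + ε / 2 * X := by ring
  rw [h5]
  exact add_le_add h1 h2

theorem criterion {K : Type} [Finite K] {add mul : K → K → K} {zero : K}
    (h : IsPlanarNeofield add mul zero)
    (hcomm : ∀ a b, a ≠ zero → b ≠ zero → mul a b = mul b a) (w l i : ℕ)
    (hw : w.Prime) (hw2 : w ≠ 2) (hl : l.Prime) (hwK : w ∣ Nat.card K - 1)
    (hwl : w ∣ l ^ i + 1) : Even ((Nat.card K).factorization l) := by
  by_cases hi : i = 0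
  · exfalso
    rw [hi, pow_zero] at hwl
    have h1 := Nat.le_of_dvd (by norm_num) hwl
    have := hw.two_le
    omega
  · exact neofield_criterion h hcomm hw hw2 hl hwK hi hwl

theorem DZ_HasNeofield : DZ HasNeofield := by
  apply DZ.shift
  apply DZ_of_odd_dvd
  intro w hw hw2
  have h1 : DZ (fun v => w ∣ v - 1 ∧ HasNeofield v) := by
    apply DZ_exact w hw.two_le
    rintro v ⟨hwv, K, add, mul, zero, _, hK, hneo, hcomm⟩ l hl hwl hlv
    have h1 := criterion hneo hcomm w l 1 hw hw2 hl (by rw [hK]; exact hwv)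
      (by rw [pow_one]; exact hwl)
    rw [hK] at h1
    have hv0 : v ≠ 0 := by
      rw [← hK]
      have : Nonempty K := ⟨zero⟩
      exact Nat.card_pos.ne'
    rw [hl.pow_dvd_iff_le_factorization hv0]
    have h2 : 1 ≤ v.factorization l := (hl.dvd_iff_one_le_factorization hv0).1 hlv
    obtain ⟨c, hc⟩ := h1
    omega
  refine (DZ.unshift h1).mono ?_
  rintro t ⟨ht, h2⟩
  exact ⟨by simpa using ht, h2⟩

/-- **Orders of planar neofields.** Let `K` be a planar neofield of finite order `n` with
commutative multiplication. If `w ≠ 2` and `l` are primes such that `w` divides `n - 1` and some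
`l ^ i + 1`, then `l` divides `n` to an even power. Consequently the orders of planar neofields
with commutative multiplication have natural density zero. -/
theorem result :
    (∀ (K : Type) [Finite K] (add mul : K → K → K) (zero : K), IsPlanarNeofield add mul zero →
      (∀ a b, a ≠ zero → b ≠ zero → mul a b = mul b a) →
      ∀ w l i : ℕ, w.Prime → w ≠ 2 → l.Prime → w ∣ Nat.card K - 1 → w ∣ l ^ i + 1 →
        Even ((Nat.card K).factorization l)) ∧
    Tendsto (fun X : ℕ => ({n : ℕ | n < X ∧ HasNeofield n}.ncard : ℝ) / X) atTop (nhds 0) :=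
  ⟨fun _ _ _ _ _ h hcomm w l i hw hw2 hl hwK hwl =>
    criterion h hcomm w l i hw hw2 hl hwK hwl, tendsto_of_DZ DZ_HasNeofield⟩

end Pool.Agent.Results.MP_46f6e9_co.OrdersDensityZero
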