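import Pool.Agent.H40CS.NeoPlane
import Pool.Agent.Y732.LA.All

/-!
# Almost all orders of planar neofields are prime powers

The affine plane of a planar neofield `K` of order `n` with commutative multiplication extends to a
projective plane of order `n` on which the abelian group `K* × K*` acts, with an orbit of
`(n - 1) ^ 2` points. The starting file `MP_502c58_co/LargeAbelianGroups` bounds the number of
orders of planes with such a group.
-/

set_option autoImplicit false

namespace Pool.Agent.Results.MP_46f6e9_co.PrimePowerOrders

open Pool.Agent.H40CS Configuration Configuration.ProjectivePlane Filter Topology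

/-- There is a planar neofield of order `n` with commutative multiplication
(`Pool.Agent.H40CS.IsPlanarNeofield`). -/
def HasNeofield (n : ℕ) : Prop :=
  ∃ (K : Type) (add mul : K → K → K) (zero : K), Finite K ∧ Nat.card K = n ∧
    IsPlanarNeofield add mul zero ∧ ∀ a b, a ≠ zero → b ≠ zero → mul a b = mul b a

theorem six_le {n : ℕ} (hn : ¬ IsPrimePow n) (h2 : 2 ≤ n) : 6 ≤ n := by
  by_contra hlt
  apply hn
  have : n = 2 ∨ n = 3 ∨ n = 4 ∨ n = 5 := by omega
  rcases this with rfl | rfl | rfl | rfl
  · exact Nat.prime_two.isPrimePow
  · exact Nat.prime_three.isPrimePow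
  · exact (isPrimePow_nat_iff 4).2 ⟨2, 2, Nat.prime_two, by norm_num, by norm_num⟩
  · exact Nat.prime_five.isPrimePow

/-- **Almost all orders of planar neofields are prime powers.** The number of integers `n ≤ X`
which are not prime powers and are orders of planar neofields with commutative multiplication is
`o(X / log X)`. -/
theorem result :
    Tendsto (fun X : ℕ =>
      ({n : ℕ | n ≤ X ∧ ¬ IsPrimePow n ∧ HasNeofield n}.ncard : ℝ) * Real.log X / X)
      atTop (𝓝 0) := by
  refine squeeze_zero (fun X => ?_) (fun X => ?_) Pool.Agent.Y732.LA.final_all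
  · have : 0 ≤ Real.log X := Real.log_natCast_nonneg X
    positivity
  · have hlog : 0 ≤ Real.log X := Real.log_natCast_nonneg X
    apply div_le_div_of_nonneg_right _ (Nat.cast_nonneg X)
    apply mul_le_mul_of_nonneg_right _ hlog
    apply Nat.cast_le.2
    apply Set.ncard_le_ncard
    · rintro n ⟨hnX, hpp, K, add, mul, zero, hfin, hK, hneo, hcomm⟩
      refine ⟨hnX, hpp, ?_⟩
      have h2 : 2 ≤ n := by
        obtain ⟨e, he0, -⟩ := hneo.group
        have : Nontrivial K := ⟨⟨e, zero, he0⟩⟩
        rw [← hK]
        exact Finite.one_lt_card
      have h := neofield_plane hneo hcomm (by rw [hK]; exact six_le hpp h2)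
      rw [hK] at h
      exact h
    · exact (Set.finite_le_nat X).subset fun _ hn => hn.1

end Pool.Agent.Results.MP_46f6e9_co.PrimePowerOrders
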